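import Mathlib

set_option autoImplicit false

/-!
# Feige's inequality with the sharp constant `1/e` (finite discrete independent variables)

`Y i : κ → ℝ` are the values of the `i`-th (centred) variable, `w i : κ → ℝ` the weights.
The variables are independent: a configuration `o : ι → κ` has weight `∏ j, w j (o j)`.
-/

namespace Pool.Agent.Feige

open Finset

variable {ι κ : Type*} [Fintype ι] [DecidableEq ι] [Fintype κ]

/-- weight of a configuration -/
noncomputable def W (w : ι → κ → ℝ) (o : ι → κ) : ℝ := ∏ j, w j (o j)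

/-- value of the sum at a configuration -/
noncomputable def S (Y : ι → κ → ℝ) (o : ι → κ) : ℝ := ∑ j, Y j (o j)

/-- indicator of `S < 1` -/
noncomputable def chi (Y : ι → κ → ℝ) (o : ι → κ) : ℝ := if S Y o < 1 then 1 else 0

/-- Swapping the `i`-th coordinate with an independent copy. -/
theorem swap_sum (w : ι → κ → ℝ) (i : ι) (F : (ι → κ) → κ → ℝ) :
    ∑ o : ι → κ, ∑ b : κ, W w o * w i b * F o b
      = ∑ o : ι → κ, ∑ b : κ, W w o * w i b * F (Function.update o i b) (o i) := by
  classical
  rw [← Fintype.sum_prod_type', ← Fintype.sum_prod_type']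
  let e : ((ι → κ) × κ) ≃ ((ι → κ) × κ) :=
    { toFun := fun x => (Function.update x.1 i x.2, x.1 i)
      invFun := fun x => (Function.update x.1 i x.2, x.1 i)
      left_inv := fun x => by simp
      right_inv := fun x => by simp }
  rw [← Equiv.sum_comp e]
  refine Finset.sum_congr rfl (fun x _ => ?_)
  obtain ⟨o, b⟩ := x
  have h1 : (∏ j, w j (Function.update o i b j)) * w i (o i) = (∏ j, w j (o j)) * w i b := by
    rw [← Finset.mul_prod_erase Finset.univ (fun j => w j (Function.update o i b j)) (Finset.mem_univ i),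
      ← Finset.mul_prod_erase Finset.univ (fun j => w j (o j)) (Finset.mem_univ i)]
    have h2 : ∏ j ∈ Finset.univ.erase i, w j (Function.update o i b j)
        = ∏ j ∈ Finset.univ.erase i, w j (o j) := by
      refine Finset.prod_congr rfl (fun j hj => ?_)
      rw [Function.update_of_ne (Finset.ne_of_mem_erase hj)]
    rw [h2, Function.update_self]
    ring
  simp only [e, Equiv.coe_fn_mk, W]
  rw [h1]

theorem S_update (Y : ι → κ → ℝ) (o : ι → κ) (i : ι) (b : κ) :
    S Y (Function.update o i b) = (S Y o - Y i (o i)) + Y i b := by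
  unfold S
  rw [← Finset.add_sum_erase Finset.univ (fun j => Y j (Function.update o i b j)) (Finset.mem_univ i),
    ← Finset.add_sum_erase Finset.univ (fun j => Y j (o j)) (Finset.mem_univ i)]
  have h2 : ∑ j ∈ Finset.univ.erase i, Y j (Function.update o i b j)
      = ∑ j ∈ Finset.univ.erase i, Y j (o j) := by
    refine Finset.sum_congr rfl (fun j hj => ?_)
    rw [Function.update_of_ne (Finset.ne_of_mem_erase hj)]
  rw [h2, Function.update_self]
  ring

theorem factor (w : ι → κ → ℝ) (hw1 : ∀ i, ∑ b, w i b = 1) (i : ι) (g : κ → ℝ)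
    (h : (ι → κ) → ℝ) (hh : ∀ o b, h (Function.update o i b) = h o) :
    ∑ o : ι → κ, W w o * (g (o i) * h o) = (∑ b, w i b * g b) * ∑ o : ι → κ, W w o * h o := by
  have h1 : (∑ b, w i b * g b) * ∑ o : ι → κ, W w o * h o
      = ∑ o : ι → κ, ∑ b : κ, W w o * w i b * (g b * h o) := by
    rw [mul_comm, Finset.sum_mul]
    refine Finset.sum_congr rfl (fun o _ => ?_)
    rw [Finset.mul_sum]
    refine Finset.sum_congr rfl (fun b _ => ?_)
    ring
  rw [h1, swap_sum w i (fun o b => g b * h o)]
  refine Finset.sum_congr rfl (fun o _ => ?_)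
  have h2 : ∀ b, W w o * w i b * (g (o i) * h (Function.update o i b))
      = (W w o * (g (o i) * h o)) * w i b := by
    intro b
    rw [hh]
    ring
  simp only [h2]
  rw [← Finset.mul_sum, hw1, mul_one]

/-- The key pointwise inequality. -/
theorem pointwise (s a b u : ℝ) (hs : 0 ≤ s) (ha : -1 ≤ a) (hb : -1 ≤ b) :
    Real.exp (-s * b) * (Real.exp (-s * (u + a)) * (1 - (if u + a < 1 then 1 else 0))) * (a - b)
      + Real.exp (-s * a) * (Real.exp (-s * (u + b)) * (1 - (if u + b < 1 then 1 else 0))) * (b - a)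
    ≤ (b - a) * (if u + a < 1 then 1 else 0) + (a - b) * (if u + b < 1 then 1 else 0) := by
  by_cases h1 : u + a < 1 <;> by_cases h2 : u + b < 1
  · rw [if_pos h1, if_pos h2]
    ring_nf
    exact le_refl _
  · rw [if_pos h1, if_neg h2]
    push Not at h2
    have hba : 0 ≤ b - a := by linarith
    have h3 : Real.exp (-s * a) * Real.exp (-s * (u + b)) ≤ 1 := by
      rw [← Real.exp_add]
      apply Real.exp_le_one_iff.mpr
      nlinarith
    have h4 := mul_le_mul_of_nonneg_right h3 hba
    nlinarith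
  · rw [if_neg h1, if_pos h2]
    push Not at h1
    have hba : 0 ≤ a - b := by linarith
    have h3 : Real.exp (-s * b) * Real.exp (-s * (u + a)) ≤ 1 := by
      rw [← Real.exp_add]
      apply Real.exp_le_one_iff.mpr
      nlinarith
    have h4 := mul_le_mul_of_nonneg_right h3 hba
    nlinarith
  · rw [if_neg h1, if_neg h2]
    have h3 : Real.exp (-s * b) * Real.exp (-s * (u + a)) = Real.exp (-s * a) * Real.exp (-s * (u + b)) := by
      rw [← Real.exp_add, ← Real.exp_add]
      congr 1
      ring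
    have h4 : Real.exp (-s * b) * (Real.exp (-s * (u + a)) * (1 - 0)) * (a - b)
      + Real.exp (-s * a) * (Real.exp (-s * (u + b)) * (1 - 0)) * (b - a)
      = (Real.exp (-s * b) * Real.exp (-s * (u + a)) - Real.exp (-s * a) * Real.exp (-s * (u + b))) * (a - b) := by
      ring
    rw [h4, h3]
    simp

theorem pointwise0 (a b u : ℝ) :
    0 ≤ (b - a) * (if u + a < 1 then (1 : ℝ) else 0) + (a - b) * (if u + b < 1 then 1 else 0) := by
  by_cases h1 : u + a < 1 <;> by_cases h2 : u + b < 1
  · rw [if_pos h1, if_pos h2]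
    ring_nf
    exact le_refl _
  · rw [if_pos h1, if_neg h2]
    push Not at h2
    linarith
  · rw [if_neg h1, if_pos h2]
    push Not at h1
    linarith
  · rw [if_neg h1, if_neg h2]
    simp

section main

variable (w : ι → κ → ℝ) (Y : ι → κ → ℝ)

theorem chi_eq (o : ι → κ) (i : ι) :
    chi Y o = if (S Y o - Y i (o i)) + Y i (o i) < 1 then 1 else 0 := by
  unfold chi
  rw [sub_add_cancel]

theorem chi_update (o : ι → κ) (i : ι) (b : κ) :
    chi Y (Function.update o i b) = if (S Y o - Y i (o i)) + Y i b < 1 then 1 else 0 := by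
  unfold chi
  rw [S_update]

/-- `c_i = E[-Y_i; S < 1]` as a double sum. -/
theorem c_double (hw1 : ∀ i, ∑ b, w i b = 1) (hm : ∀ i, ∑ b, w i b * Y i b = 0) (i : ι) :
    ∑ o : ι → κ, ∑ b : κ, W w o * w i b * ((Y i b - Y i (o i)) * chi Y o)
      = ∑ o : ι → κ, W w o * (-(Y i (o i)) * chi Y o) := by
  refine Finset.sum_congr rfl (fun o _ => ?_)
  have h1 : ∀ b, W w o * w i b * ((Y i b - Y i (o i)) * chi Y o)
      = (W w o * chi Y o) * (w i b * Y i b) - (W w o * (Y i (o i) * chi Y o)) * w i b := by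
    intro b
    ring
  simp only [h1]
  rw [Finset.sum_sub_distrib, ← Finset.mul_sum, ← Finset.mul_sum, hm, hw1]
  ring

theorem c_nonneg (hw : ∀ i b, 0 ≤ w i b) (hw1 : ∀ i, ∑ b, w i b = 1)
    (hm : ∀ i, ∑ b, w i b * Y i b = 0) (i : ι) :
    0 ≤ ∑ o : ι → κ, W w o * (-(Y i (o i)) * chi Y o) := by
  rw [← c_double w Y hw1 hm i]
  set A := ∑ o : ι → κ, ∑ b : κ, W w o * w i b * ((Y i b - Y i (o i)) * chi Y o) with hA
  have h2 : A = ∑ o : ι → κ, ∑ b : κ, W w o * w i b *
      ((Y i (o i) - Y i b) * chi Y (Function.update o i b)) := by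
    rw [hA, swap_sum w i (fun o b => (Y i b - Y i (o i)) * chi Y o)]
    simp only [Function.update_self]
  have h3 : 0 ≤ A + A := by
    nth_rewrite 2 [h2]
    rw [hA, ← Finset.sum_add_distrib]
    refine Finset.sum_nonneg (fun o _ => ?_)
    rw [← Finset.sum_add_distrib]
    refine Finset.sum_nonneg (fun b _ => ?_)
    have hW : 0 ≤ W w o * w i b :=
      mul_nonneg (Finset.prod_nonneg (fun j _ => hw j _)) (hw i b)
    rw [← mul_add]
    refine mul_nonneg hW ?_
    rw [chi_eq Y o i, chi_update Y o i b]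
    exact pointwise0 _ _ _
  linarith

/-- the basic inequality for one coordinate -/
theorem coord (hw : ∀ i b, 0 ≤ w i b) (hw1 : ∀ i, ∑ b, w i b = 1)
    (hm : ∀ i, ∑ b, w i b * Y i b = 0) (hY : ∀ i b, -1 ≤ Y i b) (s : ℝ) (hs : 0 ≤ s) (i : ι) :
    (∑ o : ι → κ, W w o * (Y i (o i) * (Real.exp (-s * S Y o) * (1 - chi Y o))))
        * (∑ b, w i b * Real.exp (-s * Y i b))
      - (∑ b, w i b * (Y i b * Real.exp (-s * Y i b)))
        * (∑ o : ι → κ, W w o * (Real.exp (-s * S Y o) * (1 - chi Y o)))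
    ≤ ∑ o : ι → κ, W w o * (-(Y i (o i)) * chi Y o) := by
  set F1 : (ι → κ) → κ → ℝ := fun o b =>
    Real.exp (-s * Y i b) * (Real.exp (-s * S Y o) * (1 - chi Y o)) * (Y i (o i) - Y i b) with hF1
  have h0 : (∑ o : ι → κ, W w o * (Y i (o i) * (Real.exp (-s * S Y o) * (1 - chi Y o))))
        * (∑ b, w i b * Real.exp (-s * Y i b))
      - (∑ b, w i b * (Y i b * Real.exp (-s * Y i b)))
        * (∑ o : ι → κ, W w o * (Real.exp (-s * S Y o) * (1 - chi Y o)))
      = ∑ o : ι → κ, ∑ b : κ, W w o * w i b * F1 o b := by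
    rw [Finset.sum_mul, mul_comm (∑ b, w i b * (Y i b * Real.exp (-s * Y i b))), Finset.sum_mul,
      ← Finset.sum_sub_distrib]
    refine Finset.sum_congr rfl (fun o _ => ?_)
    rw [Finset.mul_sum, Finset.mul_sum, ← Finset.sum_sub_distrib]
    refine Finset.sum_congr rfl (fun b _ => ?_)
    simp only [hF1]
    ring
  rw [h0]
  set B := ∑ o : ι → κ, ∑ b : κ, W w o * w i b * F1 o b with hB
  set A := ∑ o : ι → κ, ∑ b : κ, W w o * w i b * ((Y i b - Y i (o i)) * chi Y o) with hA
  have hA1 : A = ∑ o : ι → κ, W w o * (-(Y i (o i)) * chi Y o) := c_double w Y hw1 hm i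
  have h2 : A = ∑ o : ι → κ, ∑ b : κ, W w o * w i b *
      ((Y i (o i) - Y i b) * chi Y (Function.update o i b)) := by
    rw [hA, swap_sum w i (fun o b => (Y i b - Y i (o i)) * chi Y o)]
    simp only [Function.update_self]
  have h3 : B = ∑ o : ι → κ, ∑ b : κ, W w o * w i b * F1 (Function.update o i b) (o i) := by
    rw [hB]
    exact swap_sum w i F1
  have h4 : B + B ≤ A + A := by
    nth_rewrite 2 [h2]
    nth_rewrite 2 [h3]
    rw [hA, hB, ← Finset.sum_add_distrib, ← Finset.sum_add_distrib]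
    refine Finset.sum_le_sum (fun o _ => ?_)
    rw [← Finset.sum_add_distrib, ← Finset.sum_add_distrib]
    refine Finset.sum_le_sum (fun b _ => ?_)
    have hW : 0 ≤ W w o * w i b :=
      mul_nonneg (Finset.prod_nonneg (fun j _ => hw j _)) (hw i b)
    rw [← mul_add, ← mul_add]
    refine mul_le_mul_of_nonneg_left ?_ hW
    simp only [hF1, Function.update_self]
    rw [S_update, chi_update Y o i b, chi_eq Y o i]
    have h5 := pointwise s (Y i (o i)) (Y i b) (S Y o - Y i (o i)) hs (hY i _) (hY i b)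
    rw [sub_add_cancel] at h5 ⊢
    exact h5
  rw [← hA1]
  linarith

end main

end Pool.Agent.Feige
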