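import Mathlib
import Pool.Agent.Feige.Core

set_option autoImplicit false

namespace Pool.Agent.Feige

open Finset

variable {ι κ : Type*} [Fintype ι] [DecidableEq ι] [Fintype κ]

section main

variable (w : ι → κ → ℝ) (Y : ι → κ → ℝ)

theorem W_nonneg (hw : ∀ i b, 0 ≤ w i b) (o : ι → κ) : 0 ≤ W w o :=
  Finset.prod_nonneg (fun j _ => hw j _)

theorem W_sum (hw1 : ∀ i, ∑ b, w i b = 1) : ∑ o : ι → κ, W w o = 1 := by
  unfold W
  rw [← Fintype.piFinset_univ, Finset.sum_prod_piFinset]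
  simp [hw1]

theorem chi_zero_or_one (o : ι → κ) : chi Y o = 0 ∨ chi Y o = 1 := by
  unfold chi
  split_ifs
  · right; rfl
  · left; rfl

theorem chi_nonneg (o : ι → κ) : 0 ≤ chi Y o := by
  rcases chi_zero_or_one Y o with h | h <;> rw [h] <;> norm_num

theorem chi_le_one (o : ι → κ) : chi Y o ≤ 1 := by
  rcases chi_zero_or_one Y o with h | h <;> rw [h] <;> norm_num

/-- `L(s) = E exp(-s S)` -/
noncomputable def L (s : ℝ) : ℝ := ∑ o : ι → κ, W w o * Real.exp (-s * S Y o)
/-- `P(s) = E [exp(-s S); S ≥ 1]` -/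
noncomputable def P (s : ℝ) : ℝ := ∑ o : ι → κ, W w o * (Real.exp (-s * S Y o) * (1 - chi Y o))
/-- `N(s) = E [exp(-s S); S < 1]` -/
noncomputable def N (s : ℝ) : ℝ := ∑ o : ι → κ, W w o * (Real.exp (-s * S Y o) * chi Y o)
/-- `L'(s)` with opposite sign -/
noncomputable def L1 (s : ℝ) : ℝ := ∑ o : ι → κ, W w o * (S Y o * Real.exp (-s * S Y o))
/-- `P'(s)` with opposite sign -/
noncomputable def P1 (s : ℝ) : ℝ :=
  ∑ o : ι → κ, W w o * (S Y o * (Real.exp (-s * S Y o) * (1 - chi Y o)))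
/-- `c = E [-S; S < 1]` -/
noncomputable def cc : ℝ := ∑ o : ι → κ, W w o * (-(S Y o) * chi Y o)
/-- `q = P(S < 1)` -/
noncomputable def q : ℝ := ∑ o : ι → κ, W w o * chi Y o

theorem L_eq (s : ℝ) : L w Y s = N w Y s + P w Y s := by
  unfold L N P
  rw [← Finset.sum_add_distrib]
  refine Finset.sum_congr rfl (fun o _ => ?_)
  ring

/-- inequality for one coordinate, in terms of `L` and `P` -/
theorem coord2 (hw : ∀ i b, 0 ≤ w i b) (hw1 : ∀ i, ∑ b, w i b = 1)
    (hm : ∀ i, ∑ b, w i b * Y i b = 0) (hY : ∀ i b, -1 ≤ Y i b) (s : ℝ) (hs : 0 ≤ s) (i : ι) :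
    (∑ o : ι → κ, W w o * (Y i (o i) * (Real.exp (-s * S Y o) * (1 - chi Y o)))) * L w Y s
      - (∑ o : ι → κ, W w o * (Y i (o i) * Real.exp (-s * S Y o))) * P w Y s
    ≤ (∑ o : ι → κ, W w o * (-(Y i (o i)) * chi Y o)) * L w Y s := by
  set H := ∑ o : ι → κ, W w o * Real.exp (-s * (S Y o - Y i (o i))) with hH
  have hH0 : 0 ≤ H := Finset.sum_nonneg (fun o _ => mul_nonneg (W_nonneg w hw o) (Real.exp_nonneg _))
  have hup : ∀ (o : ι → κ) (b : κ),
      Real.exp (-s * (S Y (Function.update o i b) - Y i (Function.update o i b i)))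
        = Real.exp (-s * (S Y o - Y i (o i))) := by
    intro o b
    rw [S_update, Function.update_self]
    congr 1
    ring
  have e1 : L w Y s = (∑ b, w i b * Real.exp (-s * Y i b)) * H := by
    rw [hH, ← factor w hw1 i (fun b => Real.exp (-s * Y i b))
      (fun o => Real.exp (-s * (S Y o - Y i (o i)))) hup]
    unfold L
    refine Finset.sum_congr rfl (fun o _ => ?_)
    rw [← Real.exp_add]
    congr 2
    ring
  have e2 : ∑ o : ι → κ, W w o * (Y i (o i) * Real.exp (-s * S Y o))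
      = (∑ b, w i b * (Y i b * Real.exp (-s * Y i b))) * H := by
    rw [hH, ← factor w hw1 i (fun b => Y i b * Real.exp (-s * Y i b))
      (fun o => Real.exp (-s * (S Y o - Y i (o i)))) hup]
    refine Finset.sum_congr rfl (fun o _ => ?_)
    rw [mul_assoc (Y i (o i)), ← Real.exp_add]
    congr 3
    ring
  have e3 : 1 ≤ ∑ b, w i b * Real.exp (-s * Y i b) := by
    have h1 : ∑ b, w i b * (-s * Y i b + 1) = 1 := by
      have : ∀ b, w i b * (-s * Y i b + 1) = (-s) * (w i b * Y i b) + w i b := by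
        intro b; ring
      simp only [this]
      rw [Finset.sum_add_distrib, ← Finset.mul_sum, hm, hw1]
      ring
    rw [← h1]
    refine Finset.sum_le_sum (fun b _ => ?_)
    exact mul_le_mul_of_nonneg_left (Real.add_one_le_exp _) (hw i b)
  have hc := c_nonneg w Y hw hw1 hm i
  have hk := coord w Y hw hw1 hm hY s hs i
  set A1 := ∑ o : ι → κ, W w o * (Y i (o i) * (Real.exp (-s * S Y o) * (1 - chi Y o))) with hA1
  set Li := ∑ b, w i b * Real.exp (-s * Y i b) with hLi
  set Mi := ∑ b, w i b * (Y i b * Real.exp (-s * Y i b)) with hMi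
  set ci := ∑ o : ι → κ, W w o * (-(Y i (o i)) * chi Y o) with hci
  have hPdef : ∑ o : ι → κ, W w o * (Real.exp (-s * S Y o) * (1 - chi Y o)) = P w Y s := rfl
  rw [hPdef] at hk
  rw [e2, e1]
  have h5 : (A1 * Li - Mi * P w Y s) * H ≤ ci * H := mul_le_mul_of_nonneg_right hk hH0
  have h6 : ci * H ≤ ci * (Li * H) := by
    refine mul_le_mul_of_nonneg_left ?_ hc
    nlinarith
  calc A1 * (Li * H) - Mi * H * P w Y s = (A1 * Li - Mi * P w Y s) * H := by ring
    _ ≤ ci * H := h5
    _ ≤ ci * (Li * H) := h6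

theorem main_ineq (hw : ∀ i b, 0 ≤ w i b) (hw1 : ∀ i, ∑ b, w i b = 1)
    (hm : ∀ i, ∑ b, w i b * Y i b = 0) (hY : ∀ i b, -1 ≤ Y i b) (s : ℝ) (hs : 0 ≤ s) :
    P1 w Y s * L w Y s - L1 w Y s * P w Y s ≤ cc w Y * L w Y s := by
  have h := Finset.sum_le_sum (s := (Finset.univ : Finset ι))
    (fun i _ => coord2 w Y hw hw1 hm hY s hs i)
  rw [Finset.sum_sub_distrib, ← Finset.sum_mul, ← Finset.sum_mul, ← Finset.sum_mul] at h
  have e1 : ∑ i : ι, ∑ o : ι → κ, W w o * (Y i (o i) * (Real.exp (-s * S Y o) * (1 - chi Y o)))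
      = P1 w Y s := by
    unfold P1
    rw [Finset.sum_comm]
    refine Finset.sum_congr rfl (fun o _ => ?_)
    rw [← Finset.mul_sum, ← Finset.sum_mul]
    rfl
  have e2 : ∑ i : ι, ∑ o : ι → κ, W w o * (Y i (o i) * Real.exp (-s * S Y o)) = L1 w Y s := by
    unfold L1
    rw [Finset.sum_comm]
    refine Finset.sum_congr rfl (fun o _ => ?_)
    rw [← Finset.mul_sum, ← Finset.sum_mul]
    rfl
  have e3 : ∑ i : ι, ∑ o : ι → κ, W w o * (-(Y i (o i)) * chi Y o) = cc w Y := by
    unfold cc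
    rw [Finset.sum_comm]
    refine Finset.sum_congr rfl (fun o _ => ?_)
    rw [← Finset.mul_sum, ← Finset.sum_mul, Finset.sum_neg_distrib]
    rfl
  rw [e1, e2, e3] at h
  exact h

theorem hasDeriv_exp (v s : ℝ) : HasDerivAt (fun t : ℝ => Real.exp (-t * v)) (-(v * Real.exp (-s * v))) s := by
  have h1 : HasDerivAt (fun t : ℝ => -t * v) (-v) s := by
    have := (hasDerivAt_id s).neg.mul_const v
    simpa using this
  have h2 := h1.exp
  convert h2 using 1
  ring

theorem L_deriv (s : ℝ) : HasDerivAt (L w Y) (-(L1 w Y s)) s := by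
  have h : HasDerivAt (fun t : ℝ => ∑ o : ι → κ, W w o * Real.exp (-t * S Y o))
      (∑ o : ι → κ, W w o * (-(S Y o * Real.exp (-s * S Y o)))) s :=
    HasDerivAt.fun_sum (fun o _ => (hasDeriv_exp (S Y o) s).const_mul (W w o))
  have e : -(L1 w Y s) = ∑ o : ι → κ, W w o * (-(S Y o * Real.exp (-s * S Y o))) := by
    unfold L1
    rw [← Finset.sum_neg_distrib]
    refine Finset.sum_congr rfl (fun o _ => ?_)
    ring
  rw [e]
  exact h

theorem P_deriv (s : ℝ) : HasDerivAt (P w Y) (-(P1 w Y s)) s := by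
  have h : HasDerivAt (fun t : ℝ => ∑ o : ι → κ, W w o * (Real.exp (-t * S Y o) * (1 - chi Y o)))
      (∑ o : ι → κ, W w o * (-(S Y o * Real.exp (-s * S Y o)) * (1 - chi Y o))) s :=
    HasDerivAt.fun_sum (fun o _ => ((hasDeriv_exp (S Y o) s).mul_const _).const_mul (W w o))
  have e : -(P1 w Y s) = ∑ o : ι → κ, W w o * (-(S Y o * Real.exp (-s * S Y o)) * (1 - chi Y o)) := by
    unfold P1
    rw [← Finset.sum_neg_distrib]
    refine Finset.sum_congr rfl (fun o _ => ?_)
    ring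
  rw [e]
  exact h

theorem N_deriv (s : ℝ) : HasDerivAt (N w Y) (-(L1 w Y s) + P1 w Y s) s := by
  have h := (L_deriv w Y s).sub (P_deriv w Y s)
  have e : (L w Y - P w Y) = N w Y := by
    funext t
    rw [Pi.sub_apply, L_eq]
    ring
  rw [e] at h
  have h2 : -(L1 w Y s) + P1 w Y s = -(L1 w Y s) - -(P1 w Y s) := by ring
  rw [h2]
  exact h

theorem q_le_one (hw : ∀ i b, 0 ≤ w i b) (hw1 : ∀ i, ∑ b, w i b = 1) : q w Y ≤ 1 := by
  rw [← W_sum w hw1]
  unfold q
  refine Finset.sum_le_sum (fun o _ => ?_)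
  have := mul_le_mul_of_nonneg_left (chi_le_one Y o) (W_nonneg w hw o)
  linarith

theorem cc_nonneg (hw : ∀ i b, 0 ≤ w i b) (hw1 : ∀ i, ∑ b, w i b = 1)
    (hm : ∀ i, ∑ b, w i b * Y i b = 0) : 0 ≤ cc w Y := by
  have e3 : ∑ i : ι, ∑ o : ι → κ, W w o * (-(Y i (o i)) * chi Y o) = cc w Y := by
    unfold cc
    rw [Finset.sum_comm]
    refine Finset.sum_congr rfl (fun o _ => ?_)
    rw [← Finset.mul_sum, ← Finset.sum_mul, Finset.sum_neg_distrib]
    rfl
  rw [← e3]
  exact Finset.sum_nonneg (fun i _ => c_nonneg w Y hw hw1 hm i)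

/-- Jensen: `N(s) ≥ q exp(s T)` with `T = c / q`. -/
theorem N_lower (hw : ∀ i b, 0 ≤ w i b) (hq : 0 < q w Y) (s : ℝ) :
    q w Y * Real.exp (s * (cc w Y / q w Y)) ≤ N w Y s := by
  set T := cc w Y / q w Y with hT
  have hTq : T * q w Y = cc w Y := by rw [hT]; field_simp
  have h1 : ∀ o : ι → κ, W w o * chi Y o * (Real.exp (s * T) * (-s * S Y o - s * T + 1))
      ≤ W w o * (Real.exp (-s * S Y o) * chi Y o) := by
    intro o
    have h2 : Real.exp (s * T) * (-s * S Y o - s * T + 1) ≤ Real.exp (-s * S Y o) := by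
      have h3 := Real.add_one_le_exp (-s * S Y o - s * T)
      have h4 : Real.exp (-s * S Y o) = Real.exp (s * T) * Real.exp (-s * S Y o - s * T) := by
        rw [← Real.exp_add]
        congr 1
        ring
      rw [h4]
      exact mul_le_mul_of_nonneg_left h3 (Real.exp_nonneg _)
    have h5 : 0 ≤ W w o * chi Y o := mul_nonneg (W_nonneg w hw o) (chi_nonneg Y o)
    calc W w o * chi Y o * (Real.exp (s * T) * (-s * S Y o - s * T + 1))
        ≤ W w o * chi Y o * Real.exp (-s * S Y o) := mul_le_mul_of_nonneg_left h2 h5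
      _ = W w o * (Real.exp (-s * S Y o) * chi Y o) := by ring
  have h6 := Finset.sum_le_sum (s := (Finset.univ : Finset (ι → κ))) (fun o _ => h1 o)
  have h7 : ∑ o : ι → κ, W w o * chi Y o * (Real.exp (s * T) * (-s * S Y o - s * T + 1))
      = q w Y * Real.exp (s * T) := by
    have h8 : ∀ o : ι → κ, W w o * chi Y o * (Real.exp (s * T) * (-s * S Y o - s * T + 1))
        = (Real.exp (s * T) * s) * (W w o * (-(S Y o) * chi Y o))
          + (Real.exp (s * T) * (1 - s * T)) * (W w o * chi Y o) := by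
      intro o
      ring
    simp only [h8]
    rw [Finset.sum_add_distrib, ← Finset.mul_sum, ← Finset.mul_sum]
    have h9 : ∑ o : ι → κ, W w o * (-(S Y o) * chi Y o) = cc w Y := rfl
    have h10 : ∑ o : ι → κ, W w o * chi Y o = q w Y := rfl
    rw [h9, h10, ← hTq]
    ring
  rw [h7] at h6
  exact h6

theorem P_upper (hw : ∀ i b, 0 ≤ w i b) (hw1 : ∀ i, ∑ b, w i b = 1) (s : ℝ) (hs : 0 ≤ s) :
    P w Y s ≤ Real.exp (-s) := by
  have h1 : ∀ o : ι → κ, W w o * (Real.exp (-s * S Y o) * (1 - chi Y o)) ≤ W w o * Real.exp (-s) := by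
    intro o
    refine mul_le_mul_of_nonneg_left ?_ (W_nonneg w hw o)
    unfold chi
    split_ifs with h
    · rw [sub_self, mul_zero]
      exact Real.exp_nonneg _
    · push Not at h
      rw [sub_zero, mul_one]
      apply Real.exp_le_exp.mpr
      nlinarith
  have h2 := Finset.sum_le_sum (s := (Finset.univ : Finset (ι → κ))) (fun o _ => h1 o)
  rw [← Finset.sum_mul, W_sum w hw1, one_mul] at h2
  exact h2

theorem P_nonneg (hw : ∀ i b, 0 ≤ w i b) (s : ℝ) : 0 ≤ P w Y s := by
  refine Finset.sum_nonneg (fun o _ => mul_nonneg (W_nonneg w hw o) (mul_nonneg (Real.exp_nonneg _) ?_))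
  have := chi_le_one Y o
  linarith

theorem S_mean (hw1 : ∀ i, ∑ b, w i b = 1) (hm : ∀ i, ∑ b, w i b * Y i b = 0) :
    ∑ o : ι → κ, W w o * S Y o = 0 := by
  have h1 : ∀ i : ι, ∑ o : ι → κ, W w o * Y i (o i) = 0 := by
    intro i
    have := factor w hw1 i (Y i) (fun _ => 1) (fun _ _ => rfl)
    simp only [mul_one] at this
    rw [this, hm, zero_mul]
  unfold S
  simp only [Finset.mul_sum]
  rw [Finset.sum_comm]
  exact Finset.sum_eq_zero (fun i _ => h1 i)

theorem q_pos (hw : ∀ i b, 0 ≤ w i b) (hw1 : ∀ i, ∑ b, w i b = 1)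
    (hm : ∀ i, ∑ b, w i b * Y i b = 0) : 0 < q w Y := by
  by_contra hcon
  push Not at hcon
  have h0 : q w Y = 0 :=
    le_antisymm hcon (Finset.sum_nonneg (fun o _ => mul_nonneg (W_nonneg w hw o) (chi_nonneg Y o)))
  have h1 : ∀ o : ι → κ, W w o * chi Y o = 0 := by
    have := (Finset.sum_eq_zero_iff_of_nonneg
      (fun o _ => mul_nonneg (W_nonneg w hw o) (chi_nonneg Y o))).mp h0
    intro o
    exact this o (Finset.mem_univ o)
  have h2 : ∀ o : ι → κ, W w o * 1 ≤ W w o * S Y o := by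
    intro o
    by_cases h : S Y o < 1
    · have h3 := h1 o
      unfold chi at h3
      rw [if_pos h, mul_one] at h3
      rw [h3]
      simp
    · push Not at h
      exact mul_le_mul_of_nonneg_left h (W_nonneg w hw o)
  have h4 := Finset.sum_le_sum (s := (Finset.univ : Finset (ι → κ))) (fun o _ => h2 o)
  rw [S_mean w Y hw1 hm, ← Finset.sum_mul, W_sum w hw1] at h4
  linarith

theorem feige (hw : ∀ i b, 0 ≤ w i b) (hw1 : ∀ i, ∑ b, w i b = 1)
    (hm : ∀ i, ∑ b, w i b * Y i b = 0) (hY : ∀ i b, -1 ≤ Y i b) :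
    Real.exp (-1) ≤ q w Y := by
  have hq := q_pos w Y hw hw1 hm
  have hc := cc_nonneg w Y hw hw1 hm
  set T := cc w Y / q w Y with hT
  have hT0 : 0 ≤ T := div_nonneg hc hq.le
  have hN : ∀ s : ℝ, q w Y * Real.exp (s * T) ≤ N w Y s := fun s => N_lower w Y hw hq s
  have hNpos : ∀ s : ℝ, 0 < N w Y s := fun s =>
    lt_of_lt_of_le (mul_pos hq (Real.exp_pos _)) (hN s)
  have hLpos : ∀ s : ℝ, 0 < L w Y s := by
    intro s
    rw [L_eq]
    have := P_nonneg w Y hw s
    linarith [hNpos s]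
  -- the function Φ
  set Φ : ℝ → ℝ := fun s => Real.log (N w Y s) - Real.log (L w Y s) + Real.exp (-s * T) with hΦ
  have hder : ∀ s : ℝ, HasDerivAt Φ ((-(L1 w Y s) + P1 w Y s) / N w Y s - (-(L1 w Y s)) / L w Y s
      + (-(T * Real.exp (-s * T)))) s := by
    intro s
    exact (((N_deriv w Y s).log (hNpos s).ne').sub ((L_deriv w Y s).log (hLpos s).ne')).add
      (hasDeriv_exp T s)
  have hneg : ∀ s : ℝ, 0 ≤ s → (-(L1 w Y s) + P1 w Y s) / N w Y s - (-(L1 w Y s)) / L w Y s
      + (-(T * Real.exp (-s * T))) ≤ 0 := by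
    intro s hs
    have h1 := main_ineq w Y hw hw1 hm hY s hs
    have h2 : (-(L1 w Y s) + P1 w Y s) / N w Y s - (-(L1 w Y s)) / L w Y s
        = (P1 w Y s * L w Y s - L1 w Y s * P w Y s) / (N w Y s * L w Y s) := by
      rw [div_sub_div _ _ (hNpos s).ne' (hLpos s).ne']
      congr 1
      rw [L_eq]
      ring
    have h3 : (P1 w Y s * L w Y s - L1 w Y s * P w Y s) / (N w Y s * L w Y s) ≤ cc w Y / N w Y s := by
      rw [div_le_div_iff₀ (mul_pos (hNpos s) (hLpos s)) (hNpos s)]
      have := mul_le_mul_of_nonneg_right h1 (hNpos s).le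
      linarith
    have h4 : cc w Y / N w Y s ≤ T * Real.exp (-s * T) := by
      rw [div_le_iff₀ (hNpos s)]
      have h5 : T * Real.exp (-s * T) * (q w Y * Real.exp (s * T)) = cc w Y := by
        have h6 : Real.exp (-s * T) * Real.exp (s * T) = 1 := by
          rw [← Real.exp_add]
          simp
        have h7 : T * q w Y = cc w Y := by rw [hT]; field_simp
        calc T * Real.exp (-s * T) * (q w Y * Real.exp (s * T))
            = (T * q w Y) * (Real.exp (-s * T) * Real.exp (s * T)) := by ring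
          _ = cc w Y := by rw [h6, h7, mul_one]
      rw [← h5]
      exact mul_le_mul_of_nonneg_left (hN s) (mul_nonneg hT0 (Real.exp_nonneg _))
    rw [h2]
    linarith
  have hanti : AntitoneOn Φ (Set.Ici 0) := by
    apply antitoneOn_of_deriv_nonpos (convex_Ici 0)
    · exact fun s _ => (hder s).continuousAt.continuousWithinAt
    · exact fun s _ => (hder s).differentiableAt.differentiableWithinAt
    · intro s hs
      rw [interior_Ici] at hs
      rw [(hder s).deriv]
      exact hneg s hs.le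
  have hL0 : L w Y 0 = 1 := by
    unfold L
    simp only [neg_zero, zero_mul, Real.exp_zero, mul_one]
    exact W_sum w hw1
  have hN0 : N w Y 0 = q w Y := by
    unfold N q
    simp only [neg_zero, zero_mul, Real.exp_zero, one_mul]
  have hΦ0 : Φ 0 = Real.log (q w Y) + 1 := by
    simp only [hΦ, hL0, hN0, neg_zero, zero_mul, Real.exp_zero, Real.log_one, sub_zero]
  have hlow : ∀ s : ℝ, 0 ≤ s → -(Real.exp (-s) / q w Y) ≤ Real.log (q w Y) + 1 := by
    intro s hs
    have h1 : Φ s ≤ Φ 0 := hanti (Set.mem_Ici.mpr (le_refl 0)) (Set.mem_Ici.mpr hs) hs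
    rw [hΦ0] at h1
    refine le_trans ?_ h1
    simp only [hΦ]
    have h2 : Real.log (L w Y s) - Real.log (N w Y s) ≤ P w Y s / N w Y s := by
      rw [← Real.log_div (hLpos s).ne' (hNpos s).ne']
      have h3 := Real.log_le_sub_one_of_pos (div_pos (hLpos s) (hNpos s))
      have h4 : L w Y s / N w Y s - 1 = P w Y s / N w Y s := by
        rw [L_eq, add_div, div_self (hNpos s).ne']
        ring
      linarith
    have h5 : P w Y s / N w Y s ≤ Real.exp (-s) / q w Y := by
      have h6 : q w Y ≤ N w Y s := by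
        refine le_trans ?_ (hN s)
        have : 1 ≤ Real.exp (s * T) := Real.one_le_exp (mul_nonneg hs hT0)
        nlinarith
      exact div_le_div₀ (Real.exp_nonneg _) (P_upper w Y hw hw1 s hs) hq h6
    have h7 := Real.exp_nonneg (-s * T)
    linarith
  have hlim : Filter.Tendsto (fun s : ℝ => -(Real.exp (-s) / q w Y)) Filter.atTop (nhds 0) := by
    have h1 : Filter.Tendsto (fun s : ℝ => Real.exp (-s)) Filter.atTop (nhds 0) :=
      Real.tendsto_exp_neg_atTop_nhds_zero
    have h2 := (h1.div_const (q w Y)).neg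
    simpa using h2
  have hfin : 0 ≤ Real.log (q w Y) + 1 :=
    le_of_tendsto hlim (Filter.eventually_atTop.mpr ⟨0, fun s hs => hlow s hs⟩)
  rw [← Real.le_log_iff_exp_le hq]
  linarith

end main

end Pool.Agent.Feige
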