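import Mathlib

/-!
# Feige's inequality: the static inequality

Independent two-point variables: `X_i = a i` with odds `w i`, else `0`.  For a family `D` of sets of
indices, `F w a D k` is the sum of `(∑ a)^k ∏ w` over `D`.
-/

set_option autoImplicit false

open Finset

namespace Pool.Agent.Feige

variable {ι : Type} [Fintype ι] [DecidableEq ι]

/-- weighted power sums over a family of sets -/
def F (w a : ι → ℝ) (D : Finset (Finset ι)) (k : ℕ) : ℝ :=
  ∑ S ∈ D, (∑ i ∈ S, a i) ^ k * ∏ i ∈ S, w i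

/-- part of the sum over the sets containing `i` -/
def Fi (w a : ι → ℝ) (D : Finset (Finset ι)) (i : ι) (k : ℕ) : ℝ :=
  ∑ S ∈ D.filter (fun S => i ∈ S), (∑ j ∈ S, a j) ^ k * ∏ j ∈ S, w j

/-- the sets of `D` which leave `D` when `i` is added -/
def Cr (D : Finset (Finset ι)) (i : ι) : Finset (Finset ι) :=
  D.filter (fun S => i ∉ S ∧ insert i S ∉ D)

theorem F_succ (w a : ι → ℝ) (D : Finset (Finset ι)) (k : ℕ) :
    F w a D (k + 1) = ∑ i, a i * Fi w a D i k := by
  unfold F Fi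
  have h1 : ∀ S ∈ D, (∑ i ∈ S, a i) ^ (k + 1) * ∏ i ∈ S, w i =
      ∑ i, if i ∈ S then a i * ((∑ j ∈ S, a j) ^ k * ∏ j ∈ S, w j) else 0 := by
    intro S _
    rw [← Finset.sum_filter, Finset.filter_mem_eq_inter, Finset.univ_inter, ← Finset.sum_mul,
      pow_succ]
    ring
  rw [Finset.sum_congr rfl h1, Finset.sum_comm]
  refine Finset.sum_congr rfl fun i _ => ?_
  rw [Finset.mul_sum, Finset.sum_filter]

/-- splitting off the element `i` -/
theorem split (w : ι → ℝ) (D : Finset (Finset ι)) (i : ι)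
    (hD : ∀ S, insert i S ∈ D → S ∈ D) (h : Finset ι → ℝ) :
    ∑ S ∈ D.filter (fun S => i ∈ S), h S * ∏ j ∈ S, w j =
      w i * (∑ S ∈ D.filter (fun S => i ∉ S), h (insert i S) * ∏ j ∈ S, w j -
        ∑ S ∈ Cr D i, h (insert i S) * ∏ j ∈ S, w j) := by
  have h1 : ∑ S ∈ D.filter (fun S => i ∈ S), h S * ∏ j ∈ S, w j =
      ∑ S ∈ D.filter (fun S => i ∉ S ∧ insert i S ∈ D),
        h (insert i S) * (w i * ∏ j ∈ S, w j) := by
    refine Finset.sum_bij' (fun S _ => S.erase i) (fun S _ => insert i S) ?_ ?_ ?_ ?_ ?_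
    · intro S hS
      rw [mem_filter] at hS ⊢
      have h2 : insert i (S.erase i) = S := insert_erase hS.2
      refine ⟨hD _ ?_, notMem_erase i S, ?_⟩
      · rw [h2]
        exact hS.1
      · rw [h2]
        exact hS.1
    · intro S hS
      rw [mem_filter] at hS ⊢
      exact ⟨hS.2.2, mem_insert_self i S⟩
    · intro S hS
      rw [mem_filter] at hS
      exact insert_erase hS.2
    · intro S hS
      rw [mem_filter] at hS
      exact erase_insert hS.2.1
    · intro S hS
      rw [mem_filter] at hS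
      rw [insert_erase hS.2, ← Finset.prod_insert (notMem_erase i S), insert_erase hS.2]
  have h2 : ∑ S ∈ D.filter (fun S => i ∉ S), h (insert i S) * ∏ j ∈ S, w j =
      ∑ S ∈ D.filter (fun S => i ∉ S ∧ insert i S ∈ D), h (insert i S) * ∏ j ∈ S, w j +
        ∑ S ∈ Cr D i, h (insert i S) * ∏ j ∈ S, w j := by
    unfold Cr
    rw [← Finset.sum_filter_add_sum_filter_not (D.filter (fun S => i ∉ S))
      (fun S => insert i S ∈ D), Finset.filter_filter, Finset.filter_filter]
  rw [h1, h2, add_sub_cancel_right, Finset.mul_sum]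
  refine Finset.sum_congr rfl fun S _ => ?_
  ring

/-- the probability of `i` -/
noncomputable def pr (w : ι → ℝ) (i : ι) : ℝ := w i / (1 + w i)

/-- crossing sums -/
def Ga (w a : ι → ℝ) (D : Finset (Finset ι)) (i : ι) (k : ℕ) : ℝ :=
  ∑ S ∈ Cr D i, (∑ j ∈ insert i S, a j) ^ k * ∏ j ∈ S, w j

section
variable {w a : ι → ℝ} {D : Finset (Finset ι)} (hw : ∀ i, 0 < w i)
  (hD : ∀ i S, insert i S ∈ D → S ∈ D)
include hw hD

theorem Fi_zero (i : ι) : Fi w a D i 0 = pr w i * (F w a D 0 - Ga w a D i 0) := by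
  have h := split w D i (hD i) (fun S => (∑ j ∈ S, a j) ^ 0)
  have h2 : ∑ S ∈ D.filter (fun S => i ∉ S), (∑ j ∈ insert i S, a j) ^ 0 * ∏ j ∈ S, w j =
      F w a D 0 - Fi w a D i 0 := by
    unfold F Fi
    rw [← Finset.sum_filter_add_sum_filter_not D (fun S => i ∈ S), add_sub_cancel_left]
    refine Finset.sum_congr rfl fun S _ => ?_
    rw [pow_zero, pow_zero]
  have h3 : Fi w a D i 0 = w i * (F w a D 0 - Fi w a D i 0 - Ga w a D i 0) := by
    rw [← h2]
    exact h
  have hp : 0 < 1 + w i := by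
    have := hw i
    linarith
  unfold pr
  rw [div_mul_eq_mul_div, eq_div_iff hp.ne']
  linarith

theorem Fi_one (i : ι) : Fi w a D i 1 =
    pr w i * (F w a D 1 + a i * (F w a D 0 - Fi w a D i 0) - Ga w a D i 1) := by
  have h := split w D i (hD i) (fun S => (∑ j ∈ S, a j) ^ 1)
  have h2 : ∑ S ∈ D.filter (fun S => i ∉ S), (∑ j ∈ insert i S, a j) ^ 1 * ∏ j ∈ S, w j =
      (F w a D 1 - Fi w a D i 1) + a i * (F w a D 0 - Fi w a D i 0) := by
    unfold F Fi
    rw [← Finset.sum_filter_add_sum_filter_not D (fun S => i ∈ S)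
      (fun S => (∑ i ∈ S, a i) ^ 1 * ∏ i ∈ S, w i),
      ← Finset.sum_filter_add_sum_filter_not D (fun S => i ∈ S)
      (fun S => (∑ i ∈ S, a i) ^ 0 * ∏ i ∈ S, w i), add_sub_cancel_left, add_sub_cancel_left,
      Finset.mul_sum, ← Finset.sum_add_distrib]
    refine Finset.sum_congr rfl fun S hS => ?_
    rw [mem_filter] at hS
    rw [Finset.sum_insert hS.2]
    ring
  have h3 : Fi w a D i 1 = w i * ((F w a D 1 - Fi w a D i 1) +
      a i * (F w a D 0 - Fi w a D i 0) - Ga w a D i 1) := by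
    rw [← h2]
    exact h
  have hp : 0 < 1 + w i := by
    have := hw i
    linarith
  unfold pr
  rw [div_mul_eq_mul_div, eq_div_iff hp.ne']
  linarith

theorem F_one : F w a D 1 = (∑ i, a i * pr w i) * F w a D 0 -
    ∑ i, a i * pr w i * Ga w a D i 0 := by
  rw [F_succ, Finset.sum_mul, ← Finset.sum_sub_distrib]
  refine Finset.sum_congr rfl fun i _ => ?_
  rw [Fi_zero hw hD]
  ring

theorem F_two : F w a D 2 = (∑ i, a i * pr w i) * F w a D 1 +
    (∑ i, a i ^ 2 * pr w i * (1 - pr w i)) * F w a D 0 +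
    (∑ i, (a i * pr w i) ^ 2 * Ga w a D i 0) - ∑ i, a i * pr w i * Ga w a D i 1 := by
  rw [F_succ, Finset.sum_mul, Finset.sum_mul, ← Finset.sum_add_distrib,
    ← Finset.sum_add_distrib, ← Finset.sum_sub_distrib]
  refine Finset.sum_congr rfl fun i _ => ?_
  rw [Fi_one hw hD, Fi_zero hw hD]
  ring

end

theorem Cr_univ (i : ι) : Cr (univ : Finset (Finset ι)) i = ∅ := by
  unfold Cr
  rw [Finset.filter_eq_empty_iff]
  intro S _ h
  exact h.2 (mem_univ _)

theorem Ga_univ (w a : ι → ℝ) (i : ι) (k : ℕ) : Ga w a univ i k = 0 := by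
  unfold Ga
  rw [Cr_univ, Finset.sum_empty]

/-- The static inequality. -/
theorem static {w a : ι → ℝ} (hw : ∀ i, 0 < w i) (ha : ∀ i, 0 ≤ a i) {t M : ℝ} (ht : 0 < t)
    (hM : ∀ i, a i * pr w i ≤ M) {D : Finset (Finset ι)}
    (hD : ∀ S, S ∈ D ↔ ∑ i ∈ S, a i < t) :
    0 ≤ F w a univ 1 / F w a univ 0 - F w a D 1 / F w a D 0 ∧
    (F w a univ 1 / F w a univ 0 - F w a D 1 / F w a D 0) * (t - F w a D 1 / F w a D 0 - M) ≤
      (F w a univ 2 / F w a univ 0 - (F w a univ 1 / F w a univ 0) ^ 2) -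
        (F w a D 2 / F w a D 0 - (F w a D 1 / F w a D 0) ^ 2) := by
  have hdown : ∀ i S, insert i S ∈ D → S ∈ D := by
    intro i S h
    rw [hD] at h ⊢
    refine lt_of_le_of_lt ?_ h
    exact Finset.sum_le_sum_of_subset_of_nonneg (subset_insert i S) (fun j _ _ => ha j)
  have hprod : ∀ S : Finset ι, 0 < ∏ i ∈ S, w i := fun S => Finset.prod_pos fun i _ => hw i
  have hW0 : 0 < F w a D 0 := by
    unfold F
    refine Finset.sum_pos' (fun S _ => ?_) ⟨∅, ?_, ?_⟩
    · rw [pow_zero, one_mul]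
      exact (hprod S).le
    · rw [hD, Finset.sum_empty]
      exact ht
    · rw [pow_zero, one_mul]
      exact hprod ∅
  have hZ0 : 0 < F w a univ 0 := by
    unfold F
    refine Finset.sum_pos' (fun S _ => ?_) ⟨∅, mem_univ _, ?_⟩
    · rw [pow_zero, one_mul]
      exact (hprod S).le
    · rw [pow_zero, one_mul]
      exact hprod ∅
  have hpr : ∀ i, 0 < pr w i := fun i => div_pos (hw i) (by have := hw i; linarith)
  have hG0 : ∀ i, 0 ≤ Ga w a D i 0 := fun i => Finset.sum_nonneg fun S _ => by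
    rw [pow_zero, one_mul]
    exact (hprod S).le
  have hG1 : ∀ i, t * Ga w a D i 0 ≤ Ga w a D i 1 := by
    intro i
    unfold Ga
    rw [Finset.mul_sum]
    refine Finset.sum_le_sum fun S hS => ?_
    unfold Cr at hS
    rw [mem_filter, hD (insert i S), not_lt] at hS
    rw [pow_zero, one_mul, pow_one]
    exact mul_le_mul_of_nonneg_right hS.2.2 (hprod S).le
  -- the unconditioned sums
  have hZ1 := F_one (a := a) (D := univ) hw (fun i S _ => mem_univ S)
  have hZ2 := F_two (a := a) (D := univ) hw (fun i S _ => mem_univ S)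
  simp only [Ga_univ, mul_zero, Finset.sum_const_zero, sub_zero, add_zero] at hZ1 hZ2
  have hW1 := F_one (a := a) hw hdown
  have hW2 := F_two (a := a) hw hdown
  set lam := ∑ i, a i * pr w i with hlam
  set V := ∑ i, a i ^ 2 * pr w i * (1 - pr w i) with hV
  set G := ∑ i, a i * pr w i * Ga w a D i 0 with hG
  have hGnn : 0 ≤ G := Finset.sum_nonneg fun i _ =>
    mul_nonneg (mul_nonneg (ha i) (hpr i).le) (hG0 i)
  have hB : ∑ i, (a i * pr w i) ^ 2 * Ga w a D i 0 ≤ M * G := by
    rw [hG, Finset.mul_sum]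
    refine Finset.sum_le_sum fun i _ => ?_
    have h1 : 0 ≤ a i * pr w i * Ga w a D i 0 :=
      mul_nonneg (mul_nonneg (ha i) (hpr i).le) (hG0 i)
    nlinarith [hM i]
  have hC : t * G ≤ ∑ i, a i * pr w i * Ga w a D i 1 := by
    rw [hG, Finset.mul_sum]
    refine Finset.sum_le_sum fun i _ => ?_
    have h1 : 0 ≤ a i * pr w i := mul_nonneg (ha i) (hpr i).le
    nlinarith [hG1 i]
  have e1 : F w a univ 1 / F w a univ 0 = lam := by
    rw [hZ1, mul_div_assoc, div_self hZ0.ne', mul_one]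
  have e2 : F w a univ 2 / F w a univ 0 = lam ^ 2 + V := by
    rw [hZ2, hZ1, add_div, mul_div_assoc V, div_self hZ0.ne', ← mul_assoc, mul_div_assoc,
      div_self hZ0.ne']
    ring
  have e3 : F w a D 1 / F w a D 0 = lam - G / F w a D 0 := by
    rw [hW1, sub_div, mul_div_assoc, div_self hW0.ne', mul_one]
  have e4 : F w a D 2 / F w a D 0 ≤ lam * (F w a D 1 / F w a D 0) + V +
      M * (G / F w a D 0) - t * (G / F w a D 0) := by
    rw [div_le_iff₀ hW0]
    have h1 : (lam * (F w a D 1 / F w a D 0) + V + M * (G / F w a D 0) -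
        t * (G / F w a D 0)) * F w a D 0 =
        lam * F w a D 1 + V * F w a D 0 + M * G - t * G := by
      field_simp
    rw [h1, hW2]
    linarith
  set g := G / F w a D 0 with hg
  have hgnn : 0 ≤ g := div_nonneg hGnn hW0.le
  rw [e1, e2]
  rw [e3] at e4 ⊢
  constructor
  · linarith
  · nlinarith [e4]

end Pool.Agent.Feige
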